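import Pool.Agent.N581.Flow.Main

/-!
# The expected optimal error of a random permutation flow shop is not of order `√(mn)`
-/

open MeasureTheory ProbabilityTheory Filter Topology
open Pool.Agent.N581.Flow

namespace Pool.Agent.Results.MP_0b8746_pr.OptimalErrorSmall

/-- Arrays of i.i.d. times with any prescribed law on `[0, ∞)` with finite second moment exist,
so `result` is not vacuous. -/
theorem exists_isTimes (F : Measure ℝ) [IsProbabilityMeasure F] (h0 : F (Set.Iio 0) = 0)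
    (h2 : MemLp id 2 F) : ∃ (Ω : Type) (_ : MeasurableSpace Ω) (P : Measure Ω)
    (_ : IsProbabilityMeasure P) (X : ℕ → ℕ → Ω → ℝ), IsTimes P X ∧ P.map (X 0 0) = F := by
  have hlaw : ∀ p : ℕ × ℕ, (Measure.infinitePi fun _ : ℕ × ℕ => F).map (fun ω => ω p) = F :=
    fun p => (measurePreserving_eval_infinitePi (fun _ : ℕ × ℕ => F) p).map_eq
  have hm : ∀ p : ℕ × ℕ, Measurable fun ω : ℕ × ℕ → ℝ => ω p := fun p => measurable_pi_apply p
  refine ⟨ℕ × ℕ → ℝ, inferInstance, Measure.infinitePi fun _ => F, inferInstance,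
    fun i j ω => ω (i, j), ⟨fun i j => hm _, ?_, ?_, ?_, ?_⟩, hlaw _⟩
  · exact iIndepFun_infinitePi (X := fun _ ω => ω) (by fun_prop)
  · intro i j
    exact ⟨(hm _).aemeasurable, (hm _).aemeasurable, by rw [hlaw, hlaw]⟩
  · have h3 : ∀ᵐ x ∂F, 0 ≤ x := by
      rw [ae_iff]
      have : {a : ℝ | ¬ 0 ≤ a} = Set.Iio 0 := by ext a; simp
      rw [this]; exact h0
    rw [← hlaw (0, 0)] at h3
    exact ae_of_ae_map (hm _).aemeasurable h3
  · have h3 : MemLp id 2 ((Measure.infinitePi fun _ : ℕ × ℕ => F).map (fun ω => ω (0, 0))) := by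
      rw [hlaw]; exact h2
    exact (memLp_map_measure_iff aestronglyMeasurable_id (hm _).aemeasurable).1 h3

/-- For i.i.d. operation times with an arbitrary law on `[0, ∞)` with finite positive variance:
the optimal makespans are integrable; for every `ε > 0` and all `m` beyond some `m₀(ε)`,
`E[α*_{m,n}] ≤ ε √(mn)` for all large `n`; and hence there are no `c > 0` and `n₀` with
`E[α*_{m,n}] ≥ c √(mn)` for all `m ≥ 3` and `n ≥ n₀`. -/
theorem result : ∀ (Ω : Type*) [MeasurableSpace Ω] (P : Measure Ω) [IsProbabilityMeasure P]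
    (X : ℕ → ℕ → Ω → ℝ), IsTimes P X → 0 < variance (X 0 0) P →
    (∀ m n : ℕ, Integrable (fun ω => optMakespan m n (fun i j => X i j ω)) P) ∧
    (∀ ε : ℝ, 0 < ε → ∃ m₀ : ℕ, ∀ m ≥ m₀, ∀ᶠ n : ℕ in atTop,
      expError P X m n ≤ ε * Real.sqrt (m * n)) ∧
    ¬ ∃ c : ℝ, 0 < c ∧ ∃ n₀ : ℕ, ∀ m : ℕ, 3 ≤ m → ∀ n : ℕ, n₀ ≤ n →
      c * Real.sqrt ((m : ℝ) * n) ≤ expError P X m n := by
  intro Ω _ P _ X h _
  refine ⟨h.integrable_opt, fun ε hε => h.expError_small hε, ?_⟩
  rintro ⟨c, hc, n₀, hcn⟩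
  obtain ⟨m₀, hm₀⟩ := h.expError_small (ε := c / 2) (by positivity)
  obtain ⟨n, hn, hn1⟩ := ((hm₀ (max m₀ 3) (le_max_left _ _)).and
    (eventually_ge_atTop (max n₀ 1))).exists
  have h1 := hcn (max m₀ 3) (le_max_right _ _) n ((le_max_left _ _).trans hn1)
  have hn' : 1 ≤ n := (le_max_right _ _).trans hn1
  have hm' : 1 ≤ max m₀ 3 := le_trans (by norm_num) (le_max_right m₀ 3)
  have hpos : 0 < Real.sqrt (((max m₀ 3 : ℕ) : ℝ) * n) := by
    apply Real.sqrt_pos.2
    have a1 : (0 : ℝ) < n := by exact_mod_cast hn'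
    have a2 : (0 : ℝ) < ((max m₀ 3 : ℕ) : ℝ) := by exact_mod_cast hm'
    positivity
  have h2 := h1.trans hn
  nlinarith

end Pool.Agent.Results.MP_0b8746_pr.OptimalErrorSmall
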