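import Pool.Agent.N581.Ray.Law

/-!
# MP_04d7a1_pr: percolation of Poisson random rays on `ℤ²`

There is a law of the length `L` with `E |H|² = E (L + 1)² = ∞` and `λ_c > 0`.
-/

open MeasureTheory ProbabilityTheory Filter Topology
open scoped ENNReal NNReal

namespace Pool.Agent.Results.MP_04d7a1_pr.SecondMomentNotEnough

open Pool.Agent.N581.Ray

/-- `λ_c`: the infimum of the `λ > 0` for which an infinite cluster exists with positive
probability. -/
noncomputable def lamC (q : Measure ℕ) : ℝ≥0∞ :=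
  sInf {x : ℝ≥0∞ | ∃ lam : ℝ≥0, x = lam ∧ 0 < lam ∧ 0 < rayLaw lam q {ω | Percolates ω}}

theorem noperc {K : ℝ} (hK : 0 < K) (hK2 : (I1.card : ℝ) * I2.card ≤ K) {lam : ℝ≥0}
    (hlam : (lam : ℝ) ≤ 1 / (1000 * K)) : rayLaw lam lenLaw {ω | Percolates ω} = 0 := by
  have hl0 : (0 : ℝ) ≤ lam := lam.2
  -- the recursion
  have hu : Tendsto (fun k : ℕ => ps lam lenLaw ((10 ^ k : ℕ) : ℤ)) atTop (𝓝 0) := by
    have ht : Tendsto (fun k : ℕ => 205 * 2 * (lam : ℝ) * (1 / ((k : ℝ) + 2))) atTop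
        (𝓝 (205 * 2 * (lam : ℝ) * 0)) := by
      refine Tendsto.const_mul _ ?_
      have h1 : Tendsto (fun k : ℕ => (k : ℝ) + 2) atTop atTop :=
        tendsto_atTop_add_const_right _ _ tendsto_natCast_atTop_atTop
      simp_rw [one_div]
      exact h1.inv_tendsto_atTop
    rw [mul_zero] at ht
    refine rec_tendsto (a := fun k : ℕ => 205 * 2 * (lam : ℝ) * (1 / ((k : ℝ) + 2))) hK
      (fun k => ps_nonneg _) ?_ ?_ ht ?_
    · have h1 := ps_one (lam := lam) (q := lenLaw)
      have h2 : 441 * (lam : ℝ) ≤ 441 * (1 / (1000 * K)) := by linarith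
      have h3 : 441 * (1 / (1000 * K)) ≤ 1 / (2 * K) := by
        rw [mul_one_div, div_le_div_iff₀ (by positivity) (by positivity)]
        linarith
      simpa using h1.trans (h2.trans h3)
    · intro k
      have h1 : (1 : ℝ) / ((k : ℝ) + 2) ≤ 1 / 2 := by
        apply one_div_le_one_div_of_le (by norm_num)
        have : (0 : ℝ) ≤ k := Nat.cast_nonneg k
        linarith
      have h2 : 205 * 2 * (lam : ℝ) * (1 / ((k : ℝ) + 2)) ≤ 205 * (1 / (1000 * K)) := by
        have : 205 * 2 * (lam : ℝ) * (1 / ((k : ℝ) + 2)) ≤ 205 * 2 * (lam : ℝ) * (1 / 2) :=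
          mul_le_mul_of_nonneg_left h1 (by positivity)
        linarith
      refine h2.trans ?_
      rw [mul_one_div, div_le_div_iff₀ (by positivity) (by positivity)]
      linarith
    · intro k
      have h1 := ps_step (lam := lam) (q := lenLaw) (r := 10 ^ k) (Nat.one_le_pow _ _ (by norm_num))
      have e1 : ((10 ^ (k + 1) : ℕ) : ℤ) = 10 * ((10 ^ k : ℕ) : ℤ) := by push_cast; ring
      rw [e1]
      refine h1.trans (add_le_add ?_ ?_)
      · exact mul_le_mul_of_nonneg_right hK2 (sq_nonneg _)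
      · have h2 : lenLaw.real (Set.Ici (10 ^ k + 1)) ≤ (1 / 100) ^ k / (99 * (k + 2)) := by
          have := ENNReal.toReal_mono ENNReal.ofReal_ne_top (tail1 k)
          rwa [ENNReal.toReal_ofReal (by positivity)] at this
        have h3 : (200 * ((10 ^ k : ℕ) : ℝ) + 1) ^ 2 ≤ 201 ^ 2 * 100 ^ k := by
          have h4 : (1 : ℝ) ≤ ((10 ^ k : ℕ) : ℝ) := by exact_mod_cast (Nat.one_le_pow _ _ (by norm_num))
          have h5 : (200 * ((10 ^ k : ℕ) : ℝ) + 1) ≤ 201 * ((10 ^ k : ℕ) : ℝ) := by linarith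
          calc (200 * ((10 ^ k : ℕ) : ℝ) + 1) ^ 2 ≤ (201 * ((10 ^ k : ℕ) : ℝ)) ^ 2 :=
                pow_le_pow_left₀ (by positivity) h5 2
            _ = 201 ^ 2 * 100 ^ k := by
                push_cast
                rw [mul_pow, ← pow_mul, mul_comm k 2, pow_mul]
                norm_num
        calc (200 * ((10 ^ k : ℕ) : ℝ) + 1) ^ 2 * ((lam : ℝ) * lenLaw.real (Set.Ici (10 ^ k + 1)))
            ≤ (201 ^ 2 * 100 ^ k) * ((lam : ℝ) * ((1 / 100) ^ k / (99 * ((k : ℝ) + 2)))) := by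
              apply mul_le_mul h3 _ (by positivity) (by positivity)
              exact mul_le_mul_of_nonneg_left h2 hl0
          _ = (201 ^ 2 / 99) * (lam : ℝ) * (1 / ((k : ℝ) + 2)) := by
              have h6 : (100 : ℝ) ^ k * (1 / 100) ^ k = 1 := by rw [← mul_pow]; norm_num
              have h7 : (k : ℝ) + 2 ≠ 0 := by positivity
              calc (201 ^ 2 * 100 ^ k) * (lam * ((1 / 100) ^ k / (99 * ((k : ℝ) + 2))))
                  = (201 ^ 2 / 99) * (lam : ℝ) * (1 / ((k : ℝ) + 2)) * ((100 : ℝ) ^ k * (1 / 100) ^ k) := by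
                    field_simp
                _ = _ := by rw [h6, mul_one]
          _ ≤ 205 * 2 * (lam : ℝ) * (1 / ((k : ℝ) + 2)) := by
              have h8 : 0 ≤ (lam : ℝ) * (1 / ((k : ℝ) + 2)) := by positivity
              nlinarith
  have hu' : Tendsto (fun k : ℕ => ENNReal.ofReal (ps lam lenLaw ((10 ^ k : ℕ) : ℤ))) atTop
      (𝓝 0) := by
    have := (ENNReal.continuous_ofReal.tendsto 0).comp hu
    rw [ENNReal.ofReal_zero] at this
    exact this
  have hfar : Tendsto (fun k : ℕ => ENNReal.ofReal (76 * lam / (9 * ((k : ℝ) + 2)))) atTop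
      (𝓝 0) := by
    have ht : Tendsto (fun k : ℕ => 76 * (lam : ℝ) / (9 * ((k : ℝ) + 2))) atTop (𝓝 0) := by
      refine Tendsto.div_atTop tendsto_const_nhds ?_
      refine Tendsto.const_mul_atTop (by norm_num) ?_
      exact tendsto_atTop_add_const_right _ _ tendsto_natCast_atTop_atTop
    have := (ENNReal.continuous_ofReal.tendsto 0).comp ht
    rw [ENNReal.ofReal_zero] at this
    exact this
  have hone : ∀ v : ℤ × ℤ, rayLaw lam lenLaw
      {ω | v ∈ occ ω ∧ {w | (occGraph ω).Reachable v w}.Infinite} = 0 := by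
    intro v
    have hle : ∀ k : ℕ, rayLaw lam lenLaw
        {ω | v ∈ occ ω ∧ {w | (occGraph ω).Reachable v w}.Infinite} ≤
        ENNReal.ofReal (ps lam lenLaw ((10 ^ k : ℕ) : ℤ)) +
          ENNReal.ofReal (76 * lam / (9 * ((k : ℝ) + 2))) := by
      intro k
      have hsub : {ω : ℤ × ℤ → Mark | v ∈ occ ω ∧ {w | (occGraph ω).Reachable v w}.Infinite} ⊆
          {ω | Cross ω v ((10 ^ k : ℕ) : ℤ)} ∪ {ω | Far ω v (10 ^ k)} := by
        rintro ω ⟨h1, h2⟩
        exact percolates_sub h1 h2 (Nat.one_le_pow _ _ (by norm_num))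
      refine (measure_mono hsub).trans ((measure_union_le _ _).trans (add_le_add ?_ ?_))
      · have h1 := pc_le_ps (lam := lam) (q := lenLaw) v ((10 ^ k : ℕ) : ℤ)
        unfold pc at h1
        rw [← ofReal_measureReal (measure_ne_top _ _)]
        exact ENNReal.ofReal_le_ofReal h1
      · refine (prob_far_le v (10 ^ k)).trans ?_
        have h2 := tail2 k
        calc 4 * (((18 * 10 ^ k + 1 : ℕ) : ℝ≥0∞) *
              (lam * ∑' j : ℕ, lenLaw (Set.Ici (10 ^ k + j + 1))))
            ≤ 4 * (((18 * 10 ^ k + 1 : ℕ) : ℝ≥0∞) *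
              (lam * ENNReal.ofReal ((1 / 10) ^ k / (9 * (k + 2))))) := by gcongr
          _ = ENNReal.ofReal (4 * (((18 * 10 ^ k + 1 : ℕ) : ℝ) *
              (lam * ((1 / 10) ^ k / (9 * (k + 2)))))) := by
              rw [ENNReal.ofReal_mul (by norm_num), ENNReal.ofReal_mul (by positivity),
                ENNReal.ofReal_mul hl0, ENNReal.ofReal_natCast, ENNReal.ofReal_coe_nnreal]
              norm_num
          _ ≤ _ := by
              apply ENNReal.ofReal_le_ofReal
              have h4 : (1 : ℝ) ≤ (10 : ℝ) ^ k := one_le_pow₀ (by norm_num)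
              have h5 : ((18 * 10 ^ k + 1 : ℕ) : ℝ) ≤ 19 * 10 ^ k := by push_cast; linarith
              have h6 : (10 : ℝ) ^ k * (1 / 10) ^ k = 1 := by rw [← mul_pow]; norm_num
              have h7 : (k : ℝ) + 2 ≠ 0 := by positivity
              calc 4 * (((18 * 10 ^ k + 1 : ℕ) : ℝ) * (lam * ((1 / 10) ^ k / (9 * ((k : ℝ) + 2)))))
                  ≤ 4 * ((19 * 10 ^ k) * (lam * ((1 / 10) ^ k / (9 * ((k : ℝ) + 2))))) := by
                    gcongr
                _ = 76 * lam / (9 * ((k : ℝ) + 2)) * ((10 : ℝ) ^ k * (1 / 10) ^ k) := by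
                    field_simp
                    ring
                _ = _ := by rw [h6, mul_one]
    have hlim := hu'.add hfar
    rw [add_zero] at hlim
    exact le_antisymm (ge_of_tendsto' hlim hle) bot_le
  have hall : {ω : ℤ × ℤ → Mark | Percolates ω} ⊆
      ⋃ v : ℤ × ℤ, {ω | v ∈ occ ω ∧ {w | (occGraph ω).Reachable v w}.Infinite} := by
    rintro ω ⟨v, hv, hinf⟩
    rw [Set.mem_iUnion]
    exact ⟨v, hv, hinf⟩
  refine le_antisymm ((measure_mono hall).trans ?_) bot_le
  rw [measure_iUnion_null hone]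

/-- There is a law `q` of the length `L` with `E (L + 1)² = ∞` such that for all small `λ` there
is a.s. no infinite cluster; in particular `λ_c > 0`. -/
theorem result : ∃ q : Measure ℕ, IsProbabilityMeasure q ∧
    ∫⁻ L, ((L : ℝ≥0∞) + 1) ^ 2 ∂q = ⊤ ∧
    (∃ lam0 : ℝ≥0, 0 < lam0 ∧ ∀ lam : ℝ≥0, lam ≤ lam0 →
      rayLaw lam q {ω | Percolates ω} = 0) ∧
    0 < lamC q := by
  set K : ℝ := (I1.card : ℝ) * I2.card + 1 with hKdef
  have hK : 0 < K := by positivity
  have hK2 : (I1.card : ℝ) * I2.card ≤ K := by rw [hKdef]; linarith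
  set lam0 : ℝ≥0 := ⟨1 / (1000 * K), by positivity⟩ with hlam0
  have hpos : 0 < lam0 := by
    rw [← NNReal.coe_pos]
    show 0 < 1 / (1000 * K)
    positivity
  have hno : ∀ lam : ℝ≥0, lam ≤ lam0 → rayLaw lam lenLaw {ω | Percolates ω} = 0 := by
    intro lam hlam
    exact noperc hK hK2 (by exact_mod_cast hlam)
  refine ⟨lenLaw, inferInstance, lenLaw_moment, ⟨lam0, hpos, hno⟩, ?_⟩
  have : (lam0 : ℝ≥0∞) ≤ lamC lenLaw := by
    refine le_sInf ?_
    rintro x ⟨lam, rfl, hl, hp⟩
    by_contra hlt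
    rw [not_le, ENNReal.coe_lt_coe] at hlt
    rw [hno lam hlt.le] at hp
    exact lt_irrefl _ hp
  exact lt_of_lt_of_le (by exact_mod_cast hpos) this

end Pool.Agent.Results.MP_04d7a1_pr.SecondMomentNotEnough
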