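import Pool.Agent.N581.Cop.Lt

/-!
# The supremum `s_n` is attained (Q2)
-/

open MeasureTheory Pool.Agent.N581.Cop

namespace Pool.Agent.N581.Shelf.SupremumAttained

/-- For every `n ≥ 3` the supremum `s_n` is less than one, and it is attained: some `n`-copula
agrees with the lower Fréchet bound `W^{n-1}` on a (closed) set of measure exactly `s_n`. -/
theorem result : ∀ n : ℕ, 3 ≤ n →
    sn n < 1 ∧
    ∃ C : (Fin n → unitInterval) → ℝ, IsCopula n C ∧
      (volume {x : Fin n → unitInterval | C x = frechet n x}).toReal = sn n :=
  fun n hn => ⟨sn_lt_one hn, attained n⟩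

end Pool.Agent.N581.Shelf.SupremumAttained
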